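import Pool.Agent.H59.LIN.Stmt

/-!
# Weight systems and torsion (`MP_559314_gt`): definitions

`chs D` is the word of the chords which one meets along the circle of the chord diagram `D`.
-/

set_option autoImplicit false

namespace Pool.Agent.H59.LTF

open Pool.Agent.H59.LIN

/-- the chords which one meets along the circle -/
def chs {d : ℕ} (D : CD d) : List (Fin d) := List.ofFn fun x => (D x).1

/-- `W` is a weight system: it does not depend on the numbering of the chords (`rel`) and on the
base point (`rot`), vanishes on diagrams with an isolated chord (`iso`) and satisfies the 4T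
relation (`ft`): one endpoint of the chord `a` moves from one side to the other side of the two
endpoints of the chord `b`. -/
structure IsWS {M : Type*} [AddCommGroup M] {d : ℕ} (W : CD d → M) : Prop where
  rel : ∀ (D D' : CD d) (σ : Equiv.Perm (Fin d)), chs D' = (chs D).map σ → W D' = W D
  rot : ∀ (D D' : CD d) (a : Fin d) (X : List (Fin d)),
    chs D = a :: X → chs D' = X ++ [a] → W D' = W D
  iso : ∀ (D : CD d) (a : Fin d) (X : List (Fin d)), chs D = a :: a :: X → W D = 0
  ft : ∀ (D₁ D₂ D₃ D₄ : CD d) (a b : Fin d) (X Y : List (Fin d)), a ≠ b →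
    chs D₁ = a :: b :: (X ++ b :: Y) → chs D₂ = b :: (X ++ a :: b :: Y) →
    chs D₃ = b :: a :: (X ++ b :: Y) → chs D₄ = b :: (X ++ b :: a :: Y) →
    W D₁ + W D₂ = W D₃ + W D₄

/-- The abelian group valued invariant `v` has degree at most `d`. -/
def DegA {M : Type*} [AddCommGroup M] (v : (n : ℕ) → Wd n → M) (d : ℕ) : Prop :=
  ∀ (n : ℕ) (w : SWd n), Knot w → d < dbl w → ext (v n) [] w = 0

/-- TOP: the topological part (existence and properties of the symbol) -/
def T_TOP : Prop :=
  ∀ (M : Type) [AddCommGroup M] (d : ℕ) (v : (n : ℕ) → Wd n → M), KInv v → DegA v d →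
    ∃ W : CD d → M, IsWS W ∧
      ∀ (n : ℕ) (w : SWd n) (D : CD d), Knot w → Rep w D → ext (v n) [] w = W D

/-- REP: every chord diagram is the diagram of a singular knot (`Pool.Agent.H59.LIN.fin_REP`) -/
def T_REPD : Prop :=
  ∀ (d : ℕ) (D : CD d), ∃ (n : ℕ) (w : SWd n), Knot w ∧ Rep w D

/-- DIA: every singular knot with `d` double points has a chord diagram -/
def T_DIA : Prop :=
  ∀ (n d : ℕ) (w : SWd n), Knot w → dbl w = d → ∃ D : CD d, Rep w D

end Pool.Agent.H59.LTF
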